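import Pool.Agent.Helper58.CR.Assemble

/-!
Asymptotic property C for direct unions of groups: the countable subgroups of `GL_n(R)` and `GL_∞(R)` and of
groups of units of locally free algebras over arbitrary commutative rings `R`; a bound for the number of
families in terms of two radii for reduced rings, and in terms of the first radius for fields of positive
characteristic or of algebraic numbers; Coxeter groups of infinite rank; the infinite braid group.
-/

set_option autoImplicit false

namespace Pool.Agent.Results.MP_2c6f0d_gt.CommutativeRings

open Pool.Agent.Helper58.CR

universe u v w

open Classical in
/-- Let `G` be a group with a proper left-invariant metric.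
(1) If `G` acts faithfully on a free module over a commutative ring `R`, such that every element of `G`
fixes all but finitely many elements of a basis (for example if `G` is a subgroup of `GL_n(R)` or `GL_∞(R)`), then
`G` has asymptotic property C. If `R` is reduced then the number of families depends on two of the radii only.
(2) If `G` is a finitary linear group over a field `K` then `G` has asymptotic property C with a number of
families depending on two of the radii only; if `K` has positive characteristic or consists of algebraic
numbers then all finitely generated subgroups of `G` have finite asymptotic dimension and the number of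
families depends on the first radius only.
(3) Let there be finitely many homomorphisms `φ i : G → H i`, whose common kernel meets every finitely
generated subgroup in a finite set, where every `H i` satisfies `InUnits` over some commutative ring or
`LinearOver` or `UniformOver` for all finite subsets. Then `G` has asymptotic property C. If the rings are
reduced (for example fields) then the number of families depends on two of the radii only.
(4) If for every finite subset `T` there are finitely many homomorphisms `φ i : G → H i`, whose common
kernel meets the subgroup generated by `T` in a finite set, and every `H i` satisfies `InUnits` over a field of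
positive characteristic or over a field of algebraic numbers, or the image of `T` satisfies `LinearOver` or
`UniformOver`, then all finitely generated subgroups of `G` have finite asymptotic dimension and `G` has
asymptotic property C, with a number of families which depends on the first radius only.
(5) The conclusion of (4) holds for Coxeter groups of infinite rank and for the infinite braid group. -/
theorem result :
    (∀ (R : Type u) [CommRing R] (G : Type v) [Group G] [MetricSpace G],
      ProperInvariant G → FreeAction.{u, v, w} R G → APC G ∧ (IsReduced R → TwoRadiiAPC G)) ∧
    (∀ (K : Type u) [Field K] (G : Type v) [Group G] [MetricSpace G],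
      ProperInvariant G → Finitary.{u, v, w} K G → TwoRadiiAPC G ∧ (SmallField K → UniformAPC G)) ∧
    (∀ (G : Type v) [Group G] [MetricSpace G], ProperInvariant G →
      ∀ (n : ℕ) (H : Fin n → Type w) [∀ i, Group (H i)] (φ : ∀ i, G →* H i),
      (∀ T : Finset G, {g : G | g ∈ Subgroup.closure (T : Set G) ∧ ∀ i, φ i g = 1}.Finite) →
      ((∀ i, (∃ (R : Type u) (_ : CommRing R), InUnits R (H i)) ∨
        ∀ T : Finset (H i), LinearOver.{u} T ∨ UniformOver T) → APC G) ∧
      ((∀ i, (∃ (R : Type u) (_ : CommRing R), IsReduced R ∧ InUnits R (H i)) ∨
        ∀ T : Finset (H i), LinearOver.{u} T ∨ UniformOver T) → TwoRadiiAPC G)) ∧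
    (∀ (G : Type v) [Group G] [MetricSpace G], ProperInvariant G →
      (∀ T : Finset G, ∃ (n : ℕ) (H : Fin n → Type w) (_ : ∀ i, Group (H i)) (φ : ∀ i, G →* H i),
        (∀ i, (∃ (K : Type u) (_ : Field K), SmallField K ∧ InUnits K (H i)) ∨
          LinearOver.{u} (T.image (φ i)) ∨ UniformOver (T.image (φ i))) ∧
          {g : G | g ∈ Subgroup.closure (T : Set G) ∧ ∀ i, φ i g = 1}.Finite) →
      UniformAPC G) ∧
    (∀ (B : Type w) (M : CoxeterMatrix B) [MetricSpace M.Group],
      ProperInvariant M.Group → UniformAPC M.Group) ∧
    (∀ [MetricSpace (PresentedGroup braidRels)], ProperInvariant (PresentedGroup braidRels) →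
      UniformAPC (PresentedGroup braidRels)) := by
  refine ⟨?_, ?_, ?_, ?_, ?_, ?_⟩
  · intro R _ G _ _ hG h
    exact apc_of_free hG h
  · intro K _ G _ _ hG h
    exact apc_of_finitary hG h
  · intro G _ _ hG n H _ φ hker
    exact ⟨fun h => apc_of_homs hG φ h hker, fun h => twoRadii_of_homs hG φ h hker⟩
  · intro G _ _ hG h
    exact uniform_of_homs hG h
  · intro B M _ hG
    exact uniform_coxeter M hG
  · intro _ hG
    obtain ⟨K, _, hK⟩ := Pool.Agent.Helper58.AR.properUnionA_braid
    exact Pool.Agent.Helper58.GI.conclusion_of_closure hG.1 hG.2 fun T =>
      Pool.Agent.Helper58.AR.thin_of_properUnionA hK T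

end Pool.Agent.Results.MP_2c6f0d_gt.CommutativeRings
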