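import Pool.Agent.Helper65.TH.PartOne
import Pool.Agent.Helper65.TH.Criterion

/-!
Asymptotic property C for direct unions of elementary amenable groups of finite Hirsch length, and
for extensions of such groups by groups of finite asymptotic dimension.
-/

set_option autoImplicit false

namespace Pool.Agent.Results.MP_2c6f0d_gt.ElementaryAmenable

open Pool.Agent.Helper75.Apc Pool.Agent.Helper65.TH

universe u

/-- Let `G` be a group with a proper left-invariant metric and `M` a normal subgroup of finite
asymptotic dimension (for instance the trivial one) such that `G ⧸ M` is elementary amenable and all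
finitely generated subgroups of `G ⧸ M` have finite Hirsch length. Then all finitely generated subgroups
of `G` have finite asymptotic dimension and `G` has asymptotic property C; the number of families
depends on the first radius only. -/
theorem result (G : Type u) [Group G] [MetricSpace G]
    (hinv : ∀ a b c : G, dist (a * b) (a * c) = dist b c)
    (hprop : ∀ r : ℝ, (Metric.closedBall (1 : G) r).Finite)
    (M : Subgroup G) [M.Normal] (t : ℕ) (hM : AsdimLT M t)
    (hEA : EA (G ⧸ M)) (hHirsch : LocHirsch (G ⧸ M)) :
    (∀ H : Subgroup G, H.FG → ∃ t : ℕ, ∀ r : ℝ, HasFamilies H (fun _ => r) t) ∧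
    ∃ n : ℝ → ℕ, ∀ R : ℕ → ℝ, (∀ i, 0 < R i) → Monotone R → HasFamilies G R (n (R 0)) := by
  have h := permanence M hEA.hthin hHirsch
    (fun H _ => ⟨M, le_rfl, inf_le_right, t, thin_of_asdim hM _⟩)
  exact conclusion_of_thin hinv hprop h.1 h.2

end Pool.Agent.Results.MP_2c6f0d_gt.ElementaryAmenable
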