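import Pool.Agent.Helper80.TM.Reach4
import Pool.Agent.Helper65.GN.Solv
import Pool.Agent.Helper65.GN.Metric

/-!
Asymptotic property C for extensions whose kernel has an ascending series of normal subgroups with factors
which are cut in themselves (for instance unions of hyperbolic groups, or towers of almost malnormal subgroups).
-/

set_option autoImplicit false

universe u v

namespace Pool.Agent.Results.MP_2c6f0d_gt.SeparatedSeries

open Pool.Agent.Helper65.TH Pool.Agent.Helper65.GN Pool.Agent.Helper65.FP Pool.Agent.Helper80.HY
open Pool.Agent.Helper80.TM
open Pool.Agent.Helper75.Apc (HasFamilies)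

/-- asymptotic property C -/
def APC (X : Type*) [MetricSpace X] : Prop :=
  ∀ R : ℕ → ℝ, (∀ i, 0 < R i) → Monotone R → ∃ n, HasFamilies X R n

/-- Let `f : G → Q` be a homomorphism of groups with proper left-invariant metrics, where `Q` has
asymptotic property C (for instance `Q = 1`). If the kernel of `f` is solvable, or more generally if
it is reached from the trivial subgroup by an ascending (possibly transfinite) series of normal
subgroups of `G` such that in every factor `K / N` each finite subset lies in a subgroup which is
cut in `K / N` (see `Reach4`, `Nice4`, `CutZ`; for instance in a subgroup which embeds coarsely into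
a hyperbolic space, or which is almost malnormal in `K / N`), then `G` has asymptotic property C. -/
theorem result {G : Type u} {Q : Type v} [Group G] [MetricSpace G] [Group Q] [MetricSpace Q]
    (hinv : ∀ a b c : G, dist (a * b) (a * c) = dist b c)
    (hprop : ∀ r : ℝ, (Metric.closedBall (1 : G) r).Finite)
    (hinv' : ∀ a b c : Q, dist (a * b) (a * c) = dist b c)
    (hprop' : ∀ r : ℝ, (Metric.closedBall (1 : Q) r).Finite)
    (f : G →* Q) (hQ : APC Q) (hf : Group.IsSolvable f.ker ∨ Reach4 f.ker) : APC G := by
  classical
  have hR : Reach4 f.ker := by
    rcases hf with hf | hf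
    · exact reach4_of_reach3 (reach3_of_reach2 (reach2_of_reach
        (reach_of_solvable f.ker inferInstance hf)))
    · exact hf
  have hgood : ∀ T : Finset G, Good T := fun T =>
    good_ext f T (good_of_apc hinv' hprop' hQ _) (fun T' hT' => hR.good T' hT')
  exact fun R hR hm => apc_of_good hinv hprop hgood R hR hm

end Pool.Agent.Results.MP_2c6f0d_gt.SeparatedSeries
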