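import Pool.Agent.Helper80.TM.Strong

/-!
Strong asymptotic property C for unions of groups which embed coarsely into hyperbolic spaces, of virtual products of
free groups and `ℤ`, of virtual free products of groups of polynomial growth, of towers of commensurated, rooted or
almost malnormal subgroups, and of groups which are cut in their overgroups.
-/

set_option autoImplicit false

universe u

namespace Pool.Agent.Results.MP_2c6f0d_gt.SeparatedUnions

open Pool.Agent.Helper65.TH Pool.Agent.Helper65.GN Pool.Agent.Helper65.FP Pool.Agent.Helper80.HY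
open Pool.Agent.Helper80.TM

/-- Let `G` be a group with a proper left-invariant metric. Suppose that (a) every finite subset of
`G` lies in a subgroup which embeds coarsely into the hyperbolic space of some dimension `d + 1`, or (b) every
finite subset of `G` lies in a subgroup which has a finite-index subgroup isomorphic to the product of a free
group of finite rank and `ℤ`, or (c) every finite subset of `G` lies in a subgroup `L` of finite asymptotic
dimension such that for all `g` the group `L ∩ g L g⁻¹` is finite or of finite index in `L`, or (d) `G` is the union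
of subgroups `H 0 ≤ H 1 ≤ ...` each of which has a finite-index subgroup which is the free product of finitely
many finitely generated groups of polynomial growth, or (e) `G` is the union of subgroups `H 0 ≤ H 1 ≤ ...` with
strong asymptotic property C (for instance of finite asymptotic dimension) such that every `H n` is
commensurated by `H (n + 1)`, rooted in it or almost malnormal in it, or more generally than (a) to (d), (f) every
finite subset of `G` lies in a subgroup `L` with `CutZ n ⊤ L` for some `n`. Then `G` has strong asymptotic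
property C: the number of families needed for a sequence `R` depends only on its first member `R 0`. -/
theorem result {G : Type u} [Group G] [MetricSpace G]
    (hinv : ∀ a b c : G, dist (a * b) (a * c) = dist b c)
    (hprop : ∀ r : ℝ, (Metric.closedBall (1 : G) r).Finite)
    (h : (∀ T : Finset G, ∃ (L : Subgroup G) (d : ℕ), (∀ s ∈ T, s ∈ L) ∧ HypEmb L d) ∨
      (∀ T : Finset G, ∃ L : Subgroup G, (∀ s ∈ T, s ∈ L) ∧ VirtProd L) ∨
      (∀ T : Finset G, ∃ (L : Subgroup G) (t : ℕ), (∀ s ∈ T, s ∈ L) ∧ AsdimLT L t ∧ FinOrComm L) ∨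
      (∃ H : ℕ → Subgroup G, (∀ n, H n ≤ H (n + 1)) ∧ (∀ g : G, ∃ n, g ∈ H n) ∧
        ∀ n, VirtFree (H n)) ∨
      (∃ H : ℕ → Subgroup G, (∀ n, H n ≤ H (n + 1)) ∧ (∀ g : G, ∃ n, g ∈ H n) ∧
        (∀ n, Commensurated (H n) (H (n + 1)) ∨ Rooted (H n) (H (n + 1)) ∨
          AlmostMalnormal (H n) (H (n + 1))) ∧ ∀ n, StrongAPC (H n)) ∨
      ∀ T : Finset G, ∃ (n : ℕ) (L : Subgroup G), (∀ s ∈ T, s ∈ L) ∧ CutZ n ⊤ L) :
    StrongAPC G := by
  refine strong_of_sepG hinv hprop ?_
  rcases h with h | h | h | ⟨H, hle, hun, hv⟩ | ⟨H, hle, hun, hs, has⟩ | h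
  · refine sepG_of_cutZ fun T => ?_
    obtain ⟨L, d, h3, h4⟩ := h T
    exact ⟨_, L, h3, CutZ.hyp L d h4⟩
  · have hG : LocFin (⊤ : Subgroup G) := by
      intro S _
      obtain ⟨L, h3, h4⟩ := h S
      obtain ⟨t, ht⟩ := h4.asdim
      exact ⟨L, t, h3, ht⟩
    refine sepG_of_cutZ fun T => ?_
    obtain ⟨L, h3, h4⟩ := h T
    exact ⟨7, L, h3, h4.cut hG⟩
  · have hG : LocFin (⊤ : Subgroup G) := by
      intro S _
      obtain ⟨L, t, h3, h4, _⟩ := h S
      exact ⟨L, t, h3, h4⟩
    refine sepG_of_cutZ fun T => ?_
    obtain ⟨L, t, h3, h4, h5⟩ := h T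
    exact ⟨t, L, h3, cutZ_of_finOrComm hG h4 h5⟩
  · refine sepG_of_cutZ fun T => ?_
    obtain ⟨n, L, h3, _, h4⟩ := nice2_of_virtFree H hle hun hv T (fun s _ => Subgroup.mem_top s)
    exact ⟨n, L, h3, cutZ_of_cutH (cutH_of_cut h4)⟩
  · exact sepG_of_tower H hle hun hs fun n => sepG_of_strong hinv hprop (H n) (has n)
  · exact sepG_of_cutZ h

end Pool.Agent.Results.MP_2c6f0d_gt.SeparatedUnions
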